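import Pool.Agent.H69.LQ.Lib
import Pool.Agent.H69.LQ.Targets1

/-!
# (HS) the gain for one function
-/

set_option autoImplicit false

open MeasureTheory Metric Set
open scoped ENNReal
open Pool.Agent.H85.LK (E adm lam Ann)
open Pool.Agent.H69.LQ

namespace Pool.Agent.H4.LQ1

theorem HS_cut (m : ℝ) (hm : 0 < m) : ∃ (F : ℝ → ℝ) (C : ℝ), ContDiff ℝ (⊤ : ℕ∞) F ∧ 0 ≤ C ∧
    (∀ y, 0 ≤ F y ∧ F y ≤ 1) ∧ (∀ y, |y| ≤ m / 2 → F y = 0) ∧ (∀ y, m ≤ |y| → F y = 1) ∧
    ∀ y, |deriv F y| ≤ C := by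
  obtain ⟨F, hF⟩ : ∃ F : ℝ → ℝ, F = fun y =>
    Real.smoothTransition ((y ^ 2 - m ^ 2 / 4) / (3 * m ^ 2 / 4)) := ⟨_, rfl⟩
  have hs : ContDiff ℝ (⊤ : ℕ∞) F := by
    rw [hF]
    exact Real.smoothTransition.contDiff.comp (by fun_prop)
  have h1 : ∀ y, m ≤ |y| → F y = 1 := by
    intro y hy
    rw [hF]
    apply Real.smoothTransition.one_of_one_le
    rw [le_div_iff₀ (by positivity)]
    have : m ^ 2 ≤ y ^ 2 := by
      rw [← sq_abs y]
      exact pow_le_pow_left₀ hm.le hy 2
    linarith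
  have h0 : ∀ y, |y| ≤ m / 2 → F y = 0 := by
    intro y hy
    rw [hF]
    apply Real.smoothTransition.zero_of_nonpos
    apply div_nonpos_of_nonpos_of_nonneg _ (by positivity)
    have : y ^ 2 ≤ (m / 2) ^ 2 := by
      rw [← sq_abs y]
      exact pow_le_pow_left₀ (abs_nonneg _) hy 2
    linarith
  have hd : Continuous (deriv F) := hs.continuous_deriv (by norm_num)
  obtain ⟨C, hC⟩ := (isCompact_Icc (a := -m) (b := m)).exists_bound_of_continuousOn
    hd.continuousOn
  refine ⟨F, |C|, hs, abs_nonneg _, fun y => by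
    rw [hF]
    exact ⟨Real.smoothTransition.nonneg _, Real.smoothTransition.le_one _⟩, h0, h1, fun y => ?_⟩
  by_cases hy : |y| ≤ m
  · exact (hC y (abs_le.1 hy)).trans (le_abs_self C)
  · have hev : F =ᶠ[nhds y] fun _ => 1 := by
      have ho : IsOpen {y : ℝ | m < |y|} := isOpen_lt continuous_const continuous_abs
      filter_upwards [ho.mem_nhds (not_le.1 hy)] with z hz
      exact h1 z (le_of_lt hz)
    rw [hev.deriv_eq, deriv_const, abs_zero]
    exact abs_nonneg _

theorem HS_int {N : ℕ} (g : E N → ℝ) (hg : Continuous g) (a : ℝ) :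
    IntegrableOn g (ball (0 : E N) a) :=
  (hg.continuousOn.integrableOn_compact (isCompact_closedBall 0 a)).mono_set ball_subset_closedBall

theorem pf_HS (hCU : T_CU) (hSM : T_SM) : T_HS := by
  intro N m a τ A t hN hm hτ hA ht
  have hHH : ∀ w : E N → ℝ, 0 ≤ HH a w := fun w => integral_nonneg fun x => by positivity
  by_cases ha : a - τ ≤ 0
  · refine ⟨1, one_pos, fun K w _ hK _ _ _ => ?_⟩
    have hK0 : K = ∅ := by
      rw [ball_eq_empty.2 ha] at hK
      exact subset_empty_iff.1 hK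
    rw [hK0, measureReal_empty, mul_zero]
    exact mul_nonneg ht.le (hHH w)
  have ha' : 0 < a - τ := not_le.1 ha
  obtain ⟨F, C1, hF, hC1, hF01, hF0, hF1, hFd⟩ := HS_cut m hm
  obtain ⟨χ, η, hχ, hη, hsq, hpos, hin, hout, M, hM⟩ := hCU N (a - τ) (a - τ / 2) hN ha'
    (by linarith)
  have hM0 : 0 ≤ M := le_trans (by positivity) (hM 0)
  have hχ1 : ∀ x, χ x ≤ 1 := fun x => by
    have h1 := hsq x
    have h2 := (hpos x).1
    nlinarith [sq_nonneg (η x)]
  obtain ⟨C2, hC2⟩ : ∃ C2 : ℝ, C2 = 2 * C1 ^ 2 + 8 * M / m ^ 2 := ⟨_, rfl⟩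
  have hC20 : 0 ≤ C2 := by
    rw [hC2]
    positivity
  obtain ⟨κ₂, hκ₂, hsm⟩ := hSM N hN (t / (A * (C2 + 1))) (by positivity)
  refine ⟨κ₂ * t * m ^ 2 / (16 * A), by positivity, fun K w hKm hK hKv hw hKw => ?_⟩
  have hwc : Continuous w := hw.continuous
  have hwd : Continuous (fderiv ℝ w) := hw.continuous_fderiv (by norm_num)
  have hiw : IntegrableOn (fun x => w x ^ 2) (ball (0 : E N) a) := HS_int _ (by fun_prop) a
  have hid : IntegrableOn (fun x => ‖fderiv ℝ w x‖ ^ 2) (ball (0 : E N) a) :=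
    HS_int _ (by fun_prop) a
  have hHHs : HH a w = (∫ x in ball (0 : E N) a, ‖fderiv ℝ w x‖ ^ 2) +
      ∫ x in ball (0 : E N) a, w x ^ 2 := integral_add hid hiw
  have hdn : 0 ≤ ∫ x in ball (0 : E N) a, ‖fderiv ℝ w x‖ ^ 2 :=
    integral_nonneg fun x => by positivity
  have hKfin : volume K ≠ ⊤ := (hKv.trans_lt ENNReal.ofReal_lt_top).ne
  have hKr : volume.real K ≤ κ₂ * t * m ^ 2 / (16 * A) :=
    ENNReal.toReal_le_of_le_ofReal (by positivity) hKv
  by_cases hc : A / t * volume.real K ≤ ∫ x in ball (0 : E N) a, w x ^ 2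
  · have h1 : A * volume.real K = t * (A / t * volume.real K) := by
      field_simp
    rw [h1, hHHs]
    exact mul_le_mul_of_nonneg_left (by linarith) ht.le
  have hc' : ∫ x in ball (0 : E N) a, w x ^ 2 < A / t * volume.real K := not_le.1 hc
  obtain ⟨O, hO⟩ : ∃ O : Set (E N), O = {x | ‖x‖ < a ∧ m / 4 < |w x|} := ⟨_, rfl⟩
  have hOo : IsOpen O := by
    rw [hO]
    exact (isOpen_lt continuous_norm continuous_const).inter
      (isOpen_lt continuous_const hwc.abs)
  have hOb : O ⊆ ball 0 a := by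
    rw [hO]
    intro x hx
    rw [mem_ball_zero_iff]
    exact hx.1
  have hOfin : volume O ≠ ⊤ := ((measure_mono hOb).trans_lt measure_ball_lt_top).ne
  have hOr : volume.real O ≤ κ₂ := by
    have h1 : (m / 4) ^ 2 * volume.real O ≤ ∫ x in ball (0 : E N) a, w x ^ 2 := by
      have h2 : ∫ x in O, (m / 4) ^ 2 ≤ ∫ x in O, w x ^ 2 := by
        refine setIntegral_mono_on (integrableOn_const hOfin) (hiw.mono_set hOb)
          hOo.measurableSet fun x hx => ?_
        rw [hO] at hx
        rw [← sq_abs (w x)]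
        exact pow_le_pow_left₀ (by positivity) hx.2.le 2
      rw [setIntegral_const, smul_eq_mul, mul_comm] at h2
      exact h2.trans (setIntegral_mono_set hiw (ae_of_all _ fun x => sq_nonneg _)
        (ae_of_all _ hOb))
    have h3 : A / t * volume.real K ≤ A / t * (κ₂ * t * m ^ 2 / (16 * A)) :=
      mul_le_mul_of_nonneg_left hKr (by positivity)
    have h4 : A / t * (κ₂ * t * m ^ 2 / (16 * A)) = (m / 4) ^ 2 * κ₂ := by
      field_simp
      norm_num
    have h5 : (m / 4) ^ 2 * volume.real O ≤ (m / 4) ^ 2 * κ₂ := by linarith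
    exact le_of_mul_le_mul_left h5 (by positivity)
  have hOv : volume O ≤ ENNReal.ofReal κ₂ := by
    rw [← ENNReal.ofReal_toReal hOfin]
    exact ENNReal.ofReal_le_ofReal hOr
  obtain ⟨u, hu⟩ : ∃ u : E N → ℝ, u = fun x => χ x * F (w x) := ⟨_, rfl⟩
  have hus : ContDiff ℝ (⊤ : ℕ∞) u := by
    rw [hu]
    exact hχ.mul (hF.comp hw)
  have hts : tsupport u ⊆ {x | ‖x‖ ≤ a - τ / 2 ∧ m / 2 ≤ |w x|} := by
    refine closure_minimal ?_ ?_
    · intro x hx
      rw [Function.mem_support, hu] at hx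
      constructor
      · by_contra h
        apply hx
        simp only
        rw [(hout x (not_le.1 h).le).1, zero_mul]
      · by_contra h
        apply hx
        simp only
        rw [hF0 _ (not_le.1 h).le, mul_zero]
    · exact (isClosed_le continuous_norm continuous_const).inter
        (isClosed_le continuous_const hwc.abs)
  have htO : tsupport u ⊆ O := by
    intro x hx
    obtain ⟨h1, h2⟩ := hts hx
    rw [hO]
    exact ⟨by linarith, by linarith⟩
  have hcs : HasCompactSupport u := by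
    refine HasCompactSupport.of_support_subset_isCompact (isCompact_closedBall (0 : E N)
      (a - τ / 2)) fun x hx => ?_
    rw [mem_closedBall_zero_iff]
    exact (hts (subset_tsupport u hx)).1
  have h1 := hsm O u hOo hOv hus hcs htO
  -- the lower bound
  have huc : Continuous u := hus.continuous
  have hui : Integrable fun x => u x ^ 2 := by
    have : HasCompactSupport fun x => u x ^ 2 := by
      refine hcs.mono fun x hx => ?_
      rw [Function.mem_support] at hx ⊢
      intro h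
      exact hx (by rw [h]; norm_num)
    exact (huc.pow 2).integrable_of_hasCompactSupport this
  have hk : volume.real K ≤ ∫ x, u x ^ 2 := by
    have h2 : ∫ x in K, u x ^ 2 = volume.real K := by
      have h3 : ∫ x in K, u x ^ 2 = ∫ _ in K, (1 : ℝ) := by
        refine setIntegral_congr_fun hKm fun x hx => ?_
        have h4 := hK hx
        rw [mem_ball_zero_iff] at h4
        simp only [hu]
        rw [(hin x h4.le).1, hF1 _ (hKw x hx)]
        norm_num
      rw [h3, setIntegral_const, smul_eq_mul, mul_one]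
    rw [← h2]
    exact setIntegral_le_integral hui (ae_of_all _ fun x => sq_nonneg _)
  -- the upper bound
  have hfd : ∀ x, ‖fderiv ℝ u x‖ ^ 2 ≤ C2 * (‖fderiv ℝ w x‖ ^ 2 + w x ^ 2) := by
    intro x
    have e1 : HasFDerivAt (fun x => F (w x)) (deriv F (w x) • fderiv ℝ w x) x :=
      ((hF.differentiable (by norm_num)).differentiableAt.hasDerivAt).comp_hasFDerivAt x
        ((hw.differentiable (by norm_num)).differentiableAt.hasFDerivAt)
    have e2 : HasFDerivAt χ (fderiv ℝ χ x) x :=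
      (hχ.differentiable (by norm_num)).differentiableAt.hasFDerivAt
    have e3 : fderiv ℝ u x = χ x • (deriv F (w x) • fderiv ℝ w x) + F (w x) • fderiv ℝ χ x := by
      rw [hu]
      exact (e2.mul e1).fderiv
    have e4 : ‖fderiv ℝ u x‖ ≤ C1 * ‖fderiv ℝ w x‖ + F (w x) * ‖fderiv ℝ χ x‖ := by
      rw [e3]
      refine (norm_add_le _ _).trans (add_le_add ?_ ?_)
      · rw [norm_smul, norm_smul, Real.norm_eq_abs, Real.norm_eq_abs, abs_of_nonneg (hpos x).1]
        calc χ x * (|deriv F (w x)| * ‖fderiv ℝ w x‖)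
            ≤ 1 * (C1 * ‖fderiv ℝ w x‖) := by
              refine mul_le_mul (hχ1 x) ?_ (by positivity) zero_le_one
              exact mul_le_mul_of_nonneg_right (hFd _) (norm_nonneg _)
          _ = _ := one_mul _
      · rw [norm_smul, Real.norm_eq_abs, abs_of_nonneg (hF01 _).1]
    have e5 : ‖fderiv ℝ χ x‖ ^ 2 ≤ M := by
      have := hM x
      have h2 : 0 ≤ ‖fderiv ℝ η x‖ ^ 2 := by positivity
      linarith
    have e6 : F (w x) ^ 2 ≤ 4 / m ^ 2 * w x ^ 2 := by
      by_cases h : |w x| ≤ m / 2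
      · rw [hF0 _ h]
        have : 0 ≤ 4 / m ^ 2 * w x ^ 2 := by positivity
        linarith
      · have h2 : m / 2 ≤ |w x| := (not_le.1 h).le
        have h3 : (m / 2) ^ 2 ≤ w x ^ 2 := by
          rw [← sq_abs (w x)]
          exact pow_le_pow_left₀ (by positivity) h2 2
        have h4 : F (w x) ^ 2 ≤ 1 := pow_le_one₀ (hF01 _).1 (hF01 _).2
        have h5 : 1 ≤ 4 / m ^ 2 * w x ^ 2 := by
          have : 4 / m ^ 2 * (m / 2) ^ 2 = 1 := by
            field_simp
            norm_num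
          rw [← this]
          exact mul_le_mul_of_nonneg_left h3 (by positivity)
        linarith
    have e7 : ‖fderiv ℝ u x‖ ^ 2 ≤ (C1 * ‖fderiv ℝ w x‖ + F (w x) * ‖fderiv ℝ χ x‖) ^ 2 :=
      pow_le_pow_left₀ (norm_nonneg _) e4 2
    have e8 : (F (w x) * ‖fderiv ℝ χ x‖) ^ 2 ≤ 4 / m ^ 2 * w x ^ 2 * M := by
      rw [mul_pow]
      exact mul_le_mul e6 e5 (by positivity) (by positivity)
    have e9 : (C1 * ‖fderiv ℝ w x‖ + F (w x) * ‖fderiv ℝ χ x‖) ^ 2 ≤
        2 * (C1 * ‖fderiv ℝ w x‖) ^ 2 + 2 * (F (w x) * ‖fderiv ℝ χ x‖) ^ 2 := by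
      nlinarith [sq_nonneg (C1 * ‖fderiv ℝ w x‖ - F (w x) * ‖fderiv ℝ χ x‖)]
    have e10 : 0 ≤ C1 ^ 2 * w x ^ 2 := by positivity
    have e11 : 0 ≤ 8 * M / m ^ 2 * ‖fderiv ℝ w x‖ ^ 2 := by positivity
    have e12 : 4 / m ^ 2 * w x ^ 2 * M * 2 = 8 * M / m ^ 2 * w x ^ 2 := by ring
    rw [hC2]
    nlinarith
  have h2 : ∫ x, ‖fderiv ℝ u x‖ ^ 2 ≤ C2 * HH a w := by
    have h3 : ∫ x, ‖fderiv ℝ u x‖ ^ 2 = ∫ x in ball (0 : E N) a, ‖fderiv ℝ u x‖ ^ 2 := by
      refine (setIntegral_eq_integral_of_forall_compl_eq_zero fun x hx => ?_).symm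
      have h4 : x ∉ tsupport u := fun h => hx (hOb (htO h))
      have h5 : fderiv ℝ u x = 0 := by
        by_contra h6
        exact h4 (support_fderiv_subset ℝ h6)
      rw [h5]
      norm_num
    rw [h3]
    unfold HH
    rw [← integral_const_mul]
    refine setIntegral_mono_on (HS_int _ ?_ a) (HS_int _ ?_ a) measurableSet_ball fun x _ => hfd x
    · have := hus.continuous_fderiv (by norm_num)
      fun_prop
    · fun_prop
  have h3 : volume.real K ≤ t / (A * (C2 + 1)) * (C2 * HH a w) :=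
    hk.trans (h1.trans (mul_le_mul_of_nonneg_left h2 (by positivity)))
  have h4 : A * (t / (A * (C2 + 1)) * (C2 * HH a w)) = t * (C2 / (C2 + 1)) * HH a w := by
    field_simp
  have h5 : C2 / (C2 + 1) ≤ 1 := by
    rw [div_le_one (by positivity)]
    linarith
  calc A * volume.real K ≤ A * (t / (A * (C2 + 1)) * (C2 * HH a w)) :=
        mul_le_mul_of_nonneg_left h3 hA.le
    _ = t * (C2 / (C2 + 1)) * HH a w := h4
    _ ≤ t * 1 * HH a w := by
        refine mul_le_mul_of_nonneg_right ?_ (hHH w)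
        exact mul_le_mul_of_nonneg_left h5 ht.le
    _ = t * HH a w := by rw [mul_one]

end Pool.Agent.H4.LQ1
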