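import Pool.Agent.H69.LQ.Lib
import Pool.Agent.H69.LQ.Targets1

/-!
# (I3) positivity of the form and splitting of the energy
-/

set_option autoImplicit false

open MeasureTheory Metric Set
open scoped ENNReal
open Pool.Agent.H85.LK (E adm lam Ann)
open Pool.Agent.H69.LQ

namespace Pool.Agent.H4.LQ1

theorem I3_norm {N : ℕ} (D : E N →L[ℝ] ℝ) :
    ‖D‖ ^ 2 = ∑ i, D (EuclideanSpace.single i 1) ^ 2 := by
  have h1 : ‖(InnerProductSpace.toDual ℝ (E N)).symm D‖ = ‖D‖ :=
    LinearIsometryEquiv.norm_map _ _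
  rw [← h1, EuclideanSpace.norm_sq_eq]
  refine Finset.sum_congr rfl fun i _ => ?_
  have h2 : inner ℝ ((InnerProductSpace.toDual ℝ (E N)).symm D)
      (EuclideanSpace.single i (1 : ℝ)) = D (EuclideanSpace.single i 1) :=
    InnerProductSpace.toDual_symm_apply
  have h3 : inner ℝ ((InnerProductSpace.toDual ℝ (E N)).symm D)
      (EuclideanSpace.single i (1 : ℝ)) = ((InnerProductSpace.toDual ℝ (E N)).symm D) i := by
    rw [EuclideanSpace.inner_single_right]
    simp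
  rw [← h2, h3, Real.norm_eq_abs, sq_abs]

theorem I3_int {N : ℕ} (g : E N → ℝ) (hg : Continuous g) (a : ℝ) :
    IntegrableOn g (ball (0 : E N) a) :=
  (hg.continuousOn.integrableOn_compact (isCompact_closedBall 0 a)).mono_set ball_subset_closedBall

/-- the energy of a sum -/
theorem I3_exp {N : ℕ} (L a : ℝ) (g w : E N → ℝ) (hg : ContDiff ℝ (⊤ : ℕ∞) g)
    (hw : ContDiff ℝ (⊤ : ℕ∞) w) : ∃ B : ℝ, ∀ t : ℝ,
    ∫ x in ball (0 : E N) a, (‖fderiv ℝ (fun x => g x + t * w x) x‖ ^ 2 -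
      L * (g x + t * w x) ^ 2) =
    (∫ x in ball (0 : E N) a, (‖fderiv ℝ g x‖ ^ 2 - L * g x ^ 2)) + 2 * t * B +
      t ^ 2 * ∫ x in ball (0 : E N) a, (‖fderiv ℝ w x‖ ^ 2 - L * w x ^ 2) := by
  have hgc := hg.continuous
  have hwc := hw.continuous
  have hgd : Continuous (fderiv ℝ g) := hg.continuous_fderiv (by norm_num)
  have hwd : Continuous (fderiv ℝ w) := hw.continuous_fderiv (by norm_num)
  have hm : Continuous fun x => (∑ i, fderiv ℝ g x (EuclideanSpace.single i 1) *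
      fderiv ℝ w x (EuclideanSpace.single i 1)) - L * (g x * w x) := by fun_prop
  refine ⟨∫ x in ball (0 : E N) a, ((∑ i, fderiv ℝ g x (EuclideanSpace.single i 1) *
      fderiv ℝ w x (EuclideanSpace.single i 1)) - L * (g x * w x)), fun t => ?_⟩
  have h1 : ∀ x, ‖fderiv ℝ (fun x => g x + t * w x) x‖ ^ 2 - L * (g x + t * w x) ^ 2 =
      (‖fderiv ℝ g x‖ ^ 2 - L * g x ^ 2) + (2 * t * ((∑ i, fderiv ℝ g x (EuclideanSpace.single i 1) *
      fderiv ℝ w x (EuclideanSpace.single i 1)) - L * (g x * w x)) +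
      t ^ 2 * (‖fderiv ℝ w x‖ ^ 2 - L * w x ^ 2)) := by
    intro x
    have e1 : HasFDerivAt g (fderiv ℝ g x) x :=
      (hg.differentiable (by norm_num)).differentiableAt.hasFDerivAt
    have e2 : HasFDerivAt w (fderiv ℝ w x) x :=
      (hw.differentiable (by norm_num)).differentiableAt.hasFDerivAt
    have e3 : fderiv ℝ (fun x => g x + t * w x) x = fderiv ℝ g x + t • fderiv ℝ w x :=
      (e1.add (e2.const_mul t)).fderiv
    rw [e3, I3_norm, I3_norm, I3_norm]
    have e4 : ∀ i : Fin N, (fderiv ℝ g x + t • fderiv ℝ w x) (EuclideanSpace.single i 1) ^ 2 =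
        fderiv ℝ g x (EuclideanSpace.single i 1) ^ 2 +
        (2 * t * (fderiv ℝ g x (EuclideanSpace.single i 1) *
          fderiv ℝ w x (EuclideanSpace.single i 1)) +
        t ^ 2 * fderiv ℝ w x (EuclideanSpace.single i 1) ^ 2) := by
      intro i
      have e5 : (fderiv ℝ g x + t • fderiv ℝ w x) (EuclideanSpace.single i 1) =
          fderiv ℝ g x (EuclideanSpace.single i 1) +
            t * fderiv ℝ w x (EuclideanSpace.single i 1) := rfl
      rw [e5]
      ring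
    rw [Finset.sum_congr rfl fun i _ => e4 i, Finset.sum_add_distrib, Finset.sum_add_distrib,
      ← Finset.mul_sum, ← Finset.mul_sum]
    ring
  have h2 : (fun x => ‖fderiv ℝ (fun x => g x + t * w x) x‖ ^ 2 - L * (g x + t * w x) ^ 2) =
      fun x => (‖fderiv ℝ g x‖ ^ 2 - L * g x ^ 2) +
        (2 * t * ((∑ i, fderiv ℝ g x (EuclideanSpace.single i 1) *
      fderiv ℝ w x (EuclideanSpace.single i 1)) - L * (g x * w x)) +
      t ^ 2 * (‖fderiv ℝ w x‖ ^ 2 - L * w x ^ 2)) := funext h1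
  rw [h2]
  have i1 : IntegrableOn (fun x => ‖fderiv ℝ g x‖ ^ 2 - L * g x ^ 2) (ball (0 : E N) a) :=
    I3_int _ (by fun_prop) a
  have i2 : IntegrableOn (fun x => 2 * t * ((∑ i, fderiv ℝ g x (EuclideanSpace.single i 1) *
      fderiv ℝ w x (EuclideanSpace.single i 1)) - L * (g x * w x))) (ball (0 : E N) a) :=
    I3_int _ (hm.const_mul _) a
  have i3 : IntegrableOn (fun x => t ^ 2 * (‖fderiv ℝ w x‖ ^ 2 - L * w x ^ 2))
      (ball (0 : E N) a) := I3_int _ (by fun_prop) a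
  have i23 : IntegrableOn (fun x => 2 * t * ((∑ i, fderiv ℝ g x (EuclideanSpace.single i 1) *
      fderiv ℝ w x (EuclideanSpace.single i 1)) - L * (g x * w x)) +
      t ^ 2 * (‖fderiv ℝ w x‖ ^ 2 - L * w x ^ 2)) (ball (0 : E N) a) := i2.add i3
  rw [integral_add i1 i23]
  have e6 : ∫ x in ball (0 : E N) a, (2 * t * ((∑ i, fderiv ℝ g x (EuclideanSpace.single i 1) *
      fderiv ℝ w x (EuclideanSpace.single i 1)) - L * (g x * w x)) +
      t ^ 2 * (‖fderiv ℝ w x‖ ^ 2 - L * w x ^ 2)) =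
      (∫ x in ball (0 : E N) a, 2 * t * ((∑ i, fderiv ℝ g x (EuclideanSpace.single i 1) *
      fderiv ℝ w x (EuclideanSpace.single i 1)) - L * (g x * w x))) +
      ∫ x in ball (0 : E N) a, t ^ 2 * (‖fderiv ℝ w x‖ ^ 2 - L * w x ^ 2) := integral_add i2 i3
  rw [e6, integral_const_mul, integral_const_mul]
  ring

section

variable {N : ℕ}

theorem I3_c1 (F : Sp N → ℝ) (t : ℝ) (j : Fin N) : c1 (fun θ => t * F θ) j = t * c1 F j := by
  unfold c1
  have : (fun θ : Sp N => t * F θ * (θ : E N) j) = fun θ : Sp N => t * (F θ * (θ : E N) j) := by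
    funext θ
    ring
  rw [this, av_const_mul]
  ring

theorem I3_c2 (F : Sp N → ℝ) (t : ℝ) (j k : Fin N) :
    c2 (fun θ => t * F θ) j k = t * c2 F j k := by
  unfold c2
  have : (fun θ : Sp N => t * F θ * ((θ : E N) j * (θ : E N) k)) =
      fun θ : Sp N => t * (F θ * ((θ : E N) j * (θ : E N) k)) := by
    funext θ
    ring
  rw [this, av_const_mul, av_const_mul]
  split_ifs
  · ring
  · ring

theorem I3_r3 (F : Sp N → ℝ) (t : ℝ) (θ : Sp N) : r3 (fun θ => t * F θ) θ = t * r3 F θ := by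
  unfold r3
  rw [av_const_mul]
  have h1 : ∑ j, c1 (fun θ => t * F θ) j * (θ : E N) j = t * ∑ j, c1 F j * (θ : E N) j := by
    rw [Finset.mul_sum]
    refine Finset.sum_congr rfl fun j _ => ?_
    rw [I3_c1]
    ring
  have h2 : ∑ j, ∑ k, c2 (fun θ => t * F θ) j k * ((θ : E N) j * (θ : E N) k) =
      t * ∑ j, ∑ k, c2 F j k * ((θ : E N) j * (θ : E N) k) := by
    rw [Finset.mul_sum]
    refine Finset.sum_congr rfl fun j _ => ?_
    rw [Finset.mul_sum]
    refine Finset.sum_congr rfl fun k _ => ?_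
    rw [I3_c2]
    ring
  rw [h1, h2]
  ring

theorem I3_n2 (F : Sp N → ℝ) (t : ℝ) : n2 (fun θ => t * F θ) = t ^ 2 * n2 F := by
  unfold n2
  have h2 : ∑ j, ∑ k, c2 (fun θ => t * F θ) j k ^ 2 = t ^ 2 * ∑ j, ∑ k, c2 F j k ^ 2 := by
    rw [Finset.mul_sum]
    refine Finset.sum_congr rfl fun j _ => ?_
    rw [Finset.mul_sum]
    refine Finset.sum_congr rfl fun k _ => ?_
    rw [I3_c2]
    ring
  rw [h2]
  ring

theorem I3_n3 (F : Sp N → ℝ) (t : ℝ) : n3 (fun θ => t * F θ) = t ^ 2 * n3 F := by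
  unfold n3
  have h : (fun θ => r3 (fun θ => t * F θ) θ ^ 2) = fun θ => t ^ 2 * r3 F θ ^ 2 := by
    funext θ
    rw [I3_r3]
    ring
  rw [h, av_const_mul]

/-- adding a linear form -/
theorem I3_lin (hLF : T_LF) (hN : 2 ≤ N) (F : Sp N → ℝ) (T : E N) (hF : BM F) (G : Sp N → ℝ)
    (hG : ∀ θ, G θ = F θ - inner ℝ T (θ : E N)) :
    av G = av F ∧ (∀ j, c1 G j = c1 F j - T j) ∧ n2 G = n2 F ∧ n3 G = n3 F := by
  obtain ⟨h1, h2, h3, h4, -⟩ := hLF N F T hN hF
  have hGe : G = fun θ => F θ - inner ℝ T (θ : E N) := funext hG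
  rw [hGe]
  refine ⟨h2, h1, ?_, ?_⟩
  · unfold n2
    congr 1
    exact Finset.sum_congr rfl fun j _ => Finset.sum_congr rfl fun k _ => by rw [h3]
  · unfold n3
    congr 1
    funext θ
    rw [h4]

theorem I3_bm {v : E N → ℝ} (hv : ContDiff ℝ (⊤ : ℕ∞) v) (r : ℝ) : BM (rs v r) := by
  refine BM_cont ?_
  have h := hv.continuous
  unfold rs
  fun_prop

end

theorem pf_I3 (_hMP : T_MP) (_hMO : T_MO) (hLF : T_LF) (hI2 : T_I2) (hGQ : T_GQ) (_hCO : T_CO) :
    T_I3 := by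
  intro N L r₁ μ a hN hL hr hμ hra hμa
  have ha : 0 < a := lt_trans (div_pos hr.pos (by linarith)) hra
  have part1 : ∀ w : E N → ℝ, ContDiff ℝ (⊤ : ℕ∞) w → av (rs w (r₁ / μ)) = 0 →
      (∀ j, c1 (rs w a) j = 0) → 0 ≤ PP L μ a w := by
    intro w hw h0 h1
    have h2 := hI2 N L r₁ μ a w 0 hN hL hr hμ hra hμa hw h0 (fun j => by
      rw [h1 j]
      simp)
    have e1 : ∀ x : E N, gT L (0 : E N) x = 0 := fun x => by
      unfold gT
      rw [inner_zero_left, zero_mul]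
    have e2 : ∫ x in ball (0 : E N) a, (w x - gT L 0 x) ^ 2 =
        ∫ x in ball (0 : E N) a, w x ^ 2 := by
      congr 1
      funext x
      rw [e1, sub_zero]
    rw [e2, norm_zero] at h2
    have hwc := hw.continuous
    have hwd : Continuous (fderiv ℝ w) := hw.continuous_fderiv (by norm_num)
    have i1 : IntegrableOn (fun x => ‖fderiv ℝ w x‖ ^ 2 - L * w x ^ 2) (ball (0 : E N) a) :=
      I3_int _ (by fun_prop) a
    have i2 : IntegrableOn (fun x => (μ ^ 2 - 1) * L * w x ^ 2) (ball (0 : E N) a) :=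
      I3_int _ (by fun_prop) a
    have e3 : ∫ x in ball (0 : E N) a, (‖fderiv ℝ w x‖ ^ 2 - μ ^ 2 * L * w x ^ 2) =
        (∫ x in ball (0 : E N) a, (‖fderiv ℝ w x‖ ^ 2 - L * w x ^ 2)) -
          (μ ^ 2 - 1) * L * ∫ x in ball (0 : E N) a, w x ^ 2 := by
      rw [← integral_const_mul, ← integral_sub i1 i2]
      congr 1
      funext x
      ring
    unfold PP
    rw [e3]
    have e4 : ar N * (a ^ (N - 1) * (dph N L 1 a * ph N L 1 a) * ((0 : ℝ) ^ 2 / N) +
        dd N L 2 μ a * n2 (rs w a) + dd N L 3 μ a * n3 (rs w a)) =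
        ar N * (dd N L 2 μ a * n2 (rs w a) + dd N L 3 μ a * n3 (rs w a)) := by
      ring
    rw [e4] at h2
    linarith
  refine ⟨part1, fun v T hv h0 h1 => ?_⟩
  obtain ⟨hgs, hgQ⟩ := hGQ N L a T hN ha
  have hws : ContDiff ℝ (⊤ : ℕ∞) (wT L T v) := by
    have : wT L T v = fun x => v x - gT L T x := rfl
    rw [this]
    exact hv.sub hgs
  -- the spheres
  have hrs : ∀ (r : ℝ) (θ : Sp N), rs (wT L T v) r θ =
      rs v r θ - inner ℝ (ph N L 1 r • T) (θ : E N) := by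
    intro r θ
    have e1 : rs (wT L T v) r θ = v (r • (θ : E N)) - gT L T (r • (θ : E N)) := rfl
    rw [e1, gT_smul, inner_smul_left]
    unfold rs
    simp only [conj_trivial]
    ring
  obtain ⟨s1, -, -, -⟩ := I3_lin hLF hN (rs v (r₁ / μ)) _ (I3_bm hv _) _ (hrs (r₁ / μ))
  obtain ⟨-, s2, s3, s4⟩ := I3_lin hLF hN (rs v a) _ (I3_bm hv _) _ (hrs a)
  have hw0 : av (rs (wT L T v) (r₁ / μ)) = 0 := by rw [s1, h0]
  have hw1 : ∀ j, c1 (rs (wT L T v) a) j = 0 := by
    intro j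
    rw [s2, h1]
    have : (ph N L 1 a • T) j = ph N L 1 a * T j := rfl
    rw [this]
    ring
  refine ⟨hws, hw0, hw1, s3, s4, ?_⟩
  -- the energy
  obtain ⟨w, hw⟩ : ∃ w, w = wT L T v := ⟨_, rfl⟩
  rw [← hw] at hws hw0 hw1 ⊢
  obtain ⟨B, hB⟩ := I3_exp L a (gT L T) w hgs hws
  have hP := part1 w hws hw0 hw1
  have hin : ∀ t : ℝ, 0 ≤ 2 * t * B + t ^ 2 * PP L μ a w := by
    intro t
    have hvs : ContDiff ℝ (⊤ : ℕ∞) (fun x => gT L T x + t * w x) :=
      hgs.add (contDiff_const.mul hws)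
    have hrt : ∀ (r : ℝ) (θ : Sp N), rs (fun x => gT L T x + t * w x) r θ =
        t * rs w r θ - inner ℝ (-(ph N L 1 r) • T) (θ : E N) := by
      intro r θ
      have e1 : rs (fun x => gT L T x + t * w x) r θ =
          gT L T (r • (θ : E N)) + t * w (r • (θ : E N)) := rfl
      rw [e1, gT_smul, inner_smul_left]
      unfold rs
      simp only [conj_trivial]
      ring
    obtain ⟨q1, -, -, -⟩ := I3_lin hLF hN (fun θ => t * rs w (r₁ / μ) θ) _
      ((I3_bm hws _).const_mul t) _ (hrt (r₁ / μ))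
    obtain ⟨-, q2, q3, q4⟩ := I3_lin hLF hN (fun θ => t * rs w a θ) _
      ((I3_bm hws _).const_mul t) _ (hrt a)
    have h2 := hI2 N L r₁ μ a (fun x => gT L T x + t * w x) T hN hL hr hμ hra hμa hvs (by
      rw [q1, av_const_mul]
      have : av (fun θ => rs w (r₁ / μ) θ) = 0 := hw0
      rw [this, mul_zero]) (fun j => by
      rw [q2, I3_c1]
      have e1 : c1 (fun θ => rs w a θ) j = 0 := hw1 j
      have e2 : (-(ph N L 1 a) • T) j = -(ph N L 1 a) * T j := rfl
      rw [e1, e2]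
      ring)
    rw [q3, q4, I3_n2, I3_n3, hB t, hgQ] at h2
    have hwc := hws.continuous
    have hwd : Continuous (fderiv ℝ w) := hws.continuous_fderiv (by norm_num)
    have i1 : IntegrableOn (fun x => ‖fderiv ℝ w x‖ ^ 2 - L * w x ^ 2) (ball (0 : E N) a) :=
      I3_int _ (by fun_prop) a
    have i2 : IntegrableOn (fun x => (μ ^ 2 - 1) * L * w x ^ 2) (ball (0 : E N) a) :=
      I3_int _ (by fun_prop) a
    have e3 : ∫ x in ball (0 : E N) a, (‖fderiv ℝ w x‖ ^ 2 - μ ^ 2 * L * w x ^ 2) =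
        (∫ x in ball (0 : E N) a, (‖fderiv ℝ w x‖ ^ 2 - L * w x ^ 2)) -
          (μ ^ 2 - 1) * L * ∫ x in ball (0 : E N) a, w x ^ 2 := by
      rw [← integral_const_mul, ← integral_sub i1 i2]
      congr 1
      funext x
      ring
    have e5 : ∫ x in ball (0 : E N) a, (gT L T x + t * w x - gT L T x) ^ 2 =
        t ^ 2 * ∫ x in ball (0 : E N) a, w x ^ 2 := by
      rw [← integral_const_mul]
      congr 1
      funext x
      ring
    rw [e5] at h2
    have e6 : PP L μ a w = (∫ x in ball (0 : E N) a, (‖fderiv ℝ w x‖ ^ 2 - L * w x ^ 2)) -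
          (μ ^ 2 - 1) * L * (∫ x in ball (0 : E N) a, w x ^ 2) -
          ar N * (dd N L 2 μ a * n2 (rs w a) + dd N L 3 μ a * n3 (rs w a)) := by
      unfold PP
      rw [e3]
    rw [e6]
    nlinarith [h2]
  have hB0 : B = 0 := by
    by_contra hne
    have h2 := hin (-B / (PP L μ a w + 1))
    have h3 : 0 < PP L μ a w + 1 := by linarith
    have h4 : 2 * (-B / (PP L μ a w + 1)) * B + (-B / (PP L μ a w + 1)) ^ 2 * PP L μ a w =
        -(B ^ 2 * (PP L μ a w + 2)) / (PP L μ a w + 1) ^ 2 := by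
      field_simp
      ring
    rw [h4] at h2
    have h5 : 0 < B ^ 2 * (PP L μ a w + 2) / (PP L μ a w + 1) ^ 2 := by
      have : 0 < B ^ 2 := by positivity
      have h6 : 0 < PP L μ a w + 2 := by linarith
      positivity
    rw [neg_div] at h2
    linarith
  have h2 := hB 1
  have e8 : (fun x => gT L T x + 1 * w x) = v := by
    funext x
    rw [hw]
    unfold wT
    ring
  have e9 : ∫ x in ball (0 : E N) a, (‖fderiv ℝ (fun x => gT L T x + 1 * w x) x‖ ^ 2 -
      L * (gT L T x + 1 * w x) ^ 2) =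
      ∫ x in ball (0 : E N) a, (‖fderiv ℝ v x‖ ^ 2 - L * v x ^ 2) := by
    congr 1
    funext x
    rw [e8]
    have : gT L T x + 1 * w x = v x := congrFun e8 x
    rw [this]
  rw [e9, hgQ, hB0] at h2
  linarith

end Pool.Agent.H4.LQ1
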